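import Pool.Agent.W96.CL.Stm2

/-!
# The crossing probability as a proportion of edge sets
-/

set_option autoImplicit false

namespace W96CL

namespace NC366

/-- the vertices -/
abbrev Vx (a b : ℕ) := Fin (a + 1) × Fin (b + 1)

/-- the grid -/
abbrev Gr (a b : ℕ) : SimpleGraph (Vx a b) :=
  SimpleGraph.boxProd (SimpleGraph.pathGraph (a + 1)) (SimpleGraph.pathGraph (b + 1))

/-- the edge of the grid -/
def ed {a b : ℕ} : Edg a b → Sym2 (Vx a b)
  | Sum.inl (i, j) => s((i.castSucc, j), (i.succ, j))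
  | Sum.inr (i, j) => s((i, j.castSucc), (i, j.succ))

theorem ed_inj {a b : ℕ} : Function.Injective (ed (a := a) (b := b)) := by
  rintro (⟨i, j⟩ | ⟨i, j⟩) (⟨i', j'⟩ | ⟨i', j'⟩) h
  · have h1 : s((i.castSucc, j), (i.succ, j)) = s((i'.castSucc, j'), (i'.succ, j')) := h
    rw [Sym2.eq_iff] at h1
    simp only [Prod.mk.injEq, Fin.ext_iff, Fin.val_castSucc, Fin.val_succ] at h1
    congr 2 <;> ext <;> omega
  · have h1 : s((i.castSucc, j), (i.succ, j)) = s((i', j'.castSucc), (i', j'.succ)) := h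
    rw [Sym2.eq_iff] at h1
    simp only [Prod.mk.injEq, Fin.ext_iff, Fin.val_castSucc, Fin.val_succ] at h1
    omega
  · have h1 : s((i, j.castSucc), (i, j.succ)) = s((i'.castSucc, j'), (i'.succ, j')) := h
    rw [Sym2.eq_iff] at h1
    simp only [Prod.mk.injEq, Fin.ext_iff, Fin.val_castSucc, Fin.val_succ] at h1
    omega
  · have h1 : s((i, j.castSucc), (i, j.succ)) = s((i', j'.castSucc), (i', j'.succ)) := h
    rw [Sym2.eq_iff] at h1
    simp only [Prod.mk.injEq, Fin.ext_iff, Fin.val_castSucc, Fin.val_succ] at h1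
    congr 2 <;> ext <;> omega

theorem adj_hor {a b : ℕ} (i : Fin a) (j : Fin (b + 1)) :
    (Gr a b).Adj (i.castSucc, j) (i.succ, j) := by
  rw [SimpleGraph.boxProd_adj]
  left
  refine ⟨?_, rfl⟩
  rw [SimpleGraph.pathGraph_adj]
  left
  simp

theorem adj_ver {a b : ℕ} (i : Fin (a + 1)) (j : Fin b) :
    (Gr a b).Adj (i, j.castSucc) (i, j.succ) := by
  rw [SimpleGraph.boxProd_adj]
  right
  refine ⟨?_, rfl⟩
  rw [SimpleGraph.pathGraph_adj]
  left
  simp

theorem exists_ed {a b : ℕ} (u v : Vx a b) (h : (Gr a b).Adj u v) : ∃ e, ed e = s(u, v) := by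
  rw [SimpleGraph.boxProd_adj] at h
  obtain ⟨u1, u2⟩ := u
  obtain ⟨v1, v2⟩ := v
  rcases h with ⟨h, h2⟩ | ⟨h, h2⟩
  · simp only at h h2
    subst h2
    rw [SimpleGraph.pathGraph_adj] at h
    rcases h with h | h
    · have hu : u1.val < a := by have := v1.isLt; omega
      refine ⟨Sum.inl (⟨u1.val, hu⟩, u2), ?_⟩
      change s((Fin.castSucc ⟨u1.val, hu⟩, u2), (Fin.succ ⟨u1.val, hu⟩, u2)) = _
      rw [Sym2.eq_iff]
      left
      simp only [Prod.mk.injEq, Fin.ext_iff, Fin.val_castSucc, Fin.val_succ, and_true]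
      exact ⟨trivial, h⟩
    · have hv : v1.val < a := by have := u1.isLt; omega
      refine ⟨Sum.inl (⟨v1.val, hv⟩, u2), ?_⟩
      change s((Fin.castSucc ⟨v1.val, hv⟩, u2), (Fin.succ ⟨v1.val, hv⟩, u2)) = _
      rw [Sym2.eq_iff]
      right
      simp only [Prod.mk.injEq, Fin.ext_iff, Fin.val_castSucc, Fin.val_succ, and_true]
      exact ⟨trivial, h⟩
  · simp only at h h2
    subst h2
    rw [SimpleGraph.pathGraph_adj] at h
    rcases h with h | h
    · have hu : u2.val < b := by have := v2.isLt; omega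
      refine ⟨Sum.inr (u1, ⟨u2.val, hu⟩), ?_⟩
      change s((u1, Fin.castSucc ⟨u2.val, hu⟩), (u1, Fin.succ ⟨u2.val, hu⟩)) = _
      rw [Sym2.eq_iff]
      left
      simp only [Prod.mk.injEq, Fin.ext_iff, Fin.val_castSucc, Fin.val_succ, true_and]
      exact h
    · have hv : v2.val < b := by have := u2.isLt; omega
      refine ⟨Sum.inr (u1, ⟨v2.val, hv⟩), ?_⟩
      change s((u1, Fin.castSucc ⟨v2.val, hv⟩), (u1, Fin.succ ⟨v2.val, hv⟩)) = _
      rw [Sym2.eq_iff]
      right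
      simp only [Prod.mk.injEq, Fin.ext_iff, Fin.val_castSucc, Fin.val_succ, true_and]
      exact h

theorem range_ed (a b : ℕ) : Set.range (ed (a := a) (b := b)) = (Gr a b).edgeSet := by
  ext e
  constructor
  · rintro ⟨⟨i, j⟩ | ⟨i, j⟩, rfl⟩
    · exact adj_hor i j
    · exact adj_ver i j
  · intro he
    induction e using Sym2.ind with
    | _ u v => exact exists_ed u v he

/-- the set of open edges -/
def os {a b : ℕ} (ω : Edg a b → Bool) : Set (Sym2 (Vx a b)) := ed '' {e | ω e = true}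

theorem os_inj {a b : ℕ} : Function.Injective (os (a := a) (b := b)) := by
  intro ω ω' h
  have h1 : {e | ω e = true} = {e | ω' e = true} := Set.image_injective.2 ed_inj h
  funext e
  have h2 : ω e = true ↔ ω' e = true := by
    have h3 := Set.ext_iff.1 h1 e
    exact h3
  cases h3 : ω e <;> cases h4 : ω' e <;> simp_all

/-- the point of the plane -/
def pt {a b : ℕ} (u : Vx a b) : ℕ × ℕ := (u.1.val, u.2.val)

theorem adj_of_mem {a b : ℕ} {ω : Edg a b → Bool} {u v : Vx a b} (h : s(u, v) ∈ os ω)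
    (hne : u ≠ v) : (SimpleGraph.fromEdgeSet (os ω)).Adj u v :=
  (SimpleGraph.fromEdgeSet_adj _).2 ⟨h, hne⟩

theorem step_reach {a b : ℕ} (ω : Edg a b → Bool) {p q : ℕ × ℕ} (h : Step ω p q) :
    ∃ u v : Vx a b, pt u = p ∧ pt v = q ∧ (SimpleGraph.fromEdgeSet (os ω)).Reachable u v := by
  cases h with
  | hor i j h =>
    refine ⟨(i.castSucc, j), (i.succ, j), ?_, ?_, ?_⟩
    · simp [pt]
    · simp [pt]
    · refine (adj_of_mem ⟨Sum.inl (i, j), h, rfl⟩ ?_).reachable
      exact (adj_hor i j).ne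
  | ver i j h =>
    refine ⟨(i, j.castSucc), (i, j.succ), ?_, ?_, ?_⟩
    · simp [pt]
    · simp [pt]
    · refine (adj_of_mem ⟨Sum.inr (i, j), h, rfl⟩ ?_).reachable
      exact (adj_ver i j).ne

theorem pt_inj {a b : ℕ} : Function.Injective (pt (a := a) (b := b)) := by
  intro u v h
  have h1 : u.1.val = v.1.val := congrArg Prod.fst h
  have h2 : u.2.val = v.2.val := congrArg Prod.snd h
  exact Prod.ext (Fin.ext h1) (Fin.ext h2)

theorem eqv_reach {a b : ℕ} (ω : Edg a b → Bool) {p q : ℕ × ℕ}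
    (h : Relation.EqvGen (Step ω) p q) : p = q ∨
    ∃ u v : Vx a b, pt u = p ∧ pt v = q ∧ (SimpleGraph.fromEdgeSet (os ω)).Reachable u v := by
  induction h with
  | rel p q h => exact Or.inr (step_reach ω h)
  | refl p => exact Or.inl rfl
  | symm p q _ ih =>
    rcases ih with h | ⟨u, v, h1, h2, h3⟩
    · exact Or.inl h.symm
    · exact Or.inr ⟨v, u, h2, h1, h3.symm⟩
  | trans p q r _ _ ih1 ih2 =>
    rcases ih1 with rfl | ⟨u, v, h1, h2, h3⟩
    · exact ih2
    · rcases ih2 with rfl | ⟨u', v', h1', h2', h3'⟩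
      · exact Or.inr ⟨u, v, h1, h2, h3⟩
      · have h4 : v = u' := pt_inj (h2.trans h1'.symm)
        subst h4
        exact Or.inr ⟨u, v', h1, h2', h3.trans h3'⟩

theorem adj_eqv {a b : ℕ} (ω : Edg a b → Bool) {u v : Vx a b}
    (h : (SimpleGraph.fromEdgeSet (os ω)).Adj u v) :
    Relation.EqvGen (Step ω) (pt u) (pt v) := by
  rw [SimpleGraph.fromEdgeSet_adj] at h
  obtain ⟨⟨e, he, h1⟩, -⟩ := h
  rcases e with ⟨i, j⟩ | ⟨i, j⟩
  · have h2 : s((i.castSucc, j), (i.succ, j)) = s(u, v) := h1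
    have h3 : Step ω (pt ((i.castSucc, j) : Vx a b)) (pt ((i.succ, j) : Vx a b)) := by
      have h4 := Step.hor (ω := ω) i j he
      simpa [pt] using h4
    rw [Sym2.eq_iff] at h2
    rcases h2 with ⟨rfl, rfl⟩ | ⟨rfl, rfl⟩
    · exact Relation.EqvGen.rel _ _ h3
    · exact Relation.EqvGen.symm _ _ (Relation.EqvGen.rel _ _ h3)
  · have h2 : s((i, j.castSucc), (i, j.succ)) = s(u, v) := h1
    have h3 : Step ω (pt ((i, j.castSucc) : Vx a b)) (pt ((i, j.succ) : Vx a b)) := by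
      have h4 := Step.ver (ω := ω) i j he
      simpa [pt] using h4
    rw [Sym2.eq_iff] at h2
    rcases h2 with ⟨rfl, rfl⟩ | ⟨rfl, rfl⟩
    · exact Relation.EqvGen.rel _ _ h3
    · exact Relation.EqvGen.symm _ _ (Relation.EqvGen.rel _ _ h3)

theorem reach_eqv {a b : ℕ} (ω : Edg a b → Bool) {u v : Vx a b}
    (h : (SimpleGraph.fromEdgeSet (os ω)).Reachable u v) :
    Relation.EqvGen (Step ω) (pt u) (pt v) := by
  rw [SimpleGraph.reachable_iff_reflTransGen] at h
  induction h with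
  | refl => exact Relation.EqvGen.refl _
  | tail _ h ih => exact Relation.EqvGen.trans _ _ _ ih (adj_eqv ω h)

theorem cross_iff {a b : ℕ} (ω : Edg a b → Bool) : Cross ω ↔
    ∃ u v : Vx a b, u.1 = 0 ∧ v.1 = Fin.last a ∧
      (SimpleGraph.fromEdgeSet (os ω)).Reachable u v := by
  constructor
  · rintro ⟨j, j', hj, hj', h⟩
    rcases eqv_reach ω h with h1 | ⟨u, v, h1, h2, h3⟩
    · have ha : a = 0 := (congrArg Prod.fst h1).symm
      refine ⟨(0, ⟨j, by omega⟩), (0, ⟨j, by omega⟩), rfl, ?_, SimpleGraph.Reachable.refl _⟩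
      ext
      simp [ha]
    · refine ⟨u, v, ?_, ?_, h3⟩
      · have h4 : u.1.val = 0 := congrArg Prod.fst h1
        exact Fin.ext h4
      · have h4 : v.1.val = a := congrArg Prod.fst h2
        exact Fin.ext h4
  · rintro ⟨u, v, hu, hv, h⟩
    refine ⟨u.2.val, v.2.val, Nat.lt_succ_iff.1 u.2.isLt, Nat.lt_succ_iff.1 v.2.isLt, ?_⟩
    have h1 := reach_eqv ω h
    have e1 : pt u = (0, u.2.val) := by
      unfold pt
      rw [hu]
      rfl
    have e2 : pt v = (a, v.2.val) := by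
      unfold pt
      rw [hv]
      rfl
    rwa [e1, e2] at h1

theorem set_eq (a b : ℕ) : {S : Set (Sym2 (Vx a b)) | S ⊆ (Gr a b).edgeSet ∧
    ∃ u v : Vx a b, u.1 = 0 ∧ v.1 = Fin.last a ∧
      (SimpleGraph.fromEdgeSet S).Reachable u v} = os '' {ω : Edg a b → Bool | Cross ω} := by
  classical
  ext S
  constructor
  · rintro ⟨hS, h⟩
    rw [← range_ed] at hS
    have h1 : os (fun e : Edg a b => decide (ed e ∈ S)) = S := by
      ext e
      constructor
      · rintro ⟨e', he', rfl⟩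
        exact of_decide_eq_true he'
      · intro he
        obtain ⟨e', rfl⟩ := hS he
        exact ⟨e', decide_eq_true he, rfl⟩
    refine ⟨_, ?_, h1⟩
    refine (cross_iff _).2 ?_
    rw [h1]
    exact h
  · rintro ⟨ω, hω, rfl⟩
    refine ⟨?_, (cross_iff ω).1 hω⟩
    rw [← range_ed]
    exact Set.image_subset_range _ _

theorem wgt_half {a b : ℕ} (ω : Edg a b → Bool) :
    wgt (1 / 2) ω = (1 / 2 : ℝ) ^ Fintype.card (Edg a b) := by
  unfold wgt
  have h : (1 : ℝ) - 1 / 2 = 1 / 2 := by norm_num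
  rw [h]
  simp only [ite_self, Finset.prod_const, Finset.card_univ]
  rw [← pow_add, Fintype.card_sum]

end NC366

open NC366 in
theorem cl_ncard : S_ncard := by
  classical
  intro a b
  have h1 : (Gr a b).edgeSet.ncard = Fintype.card (Edg a b) := by
    rw [← range_ed, ← Set.image_univ, Set.ncard_image_of_injective _ ed_inj, Set.ncard_univ,
      Nat.card_eq_fintype_card]
  have h2 : gridProb a b = ((Set.ncard {ω : Edg a b → Bool | Cross ω} : ℕ) : ℝ) /
      (2 : ℝ) ^ Fintype.card (Edg a b) := by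
    have h3 : gridProb a b = ((Set.ncard {S : Set (Sym2 (Vx a b)) | S ⊆ (Gr a b).edgeSet ∧
        ∃ u v : Vx a b, u.1 = 0 ∧ v.1 = Fin.last a ∧
        (SimpleGraph.fromEdgeSet S).Reachable u v} : ℕ) : ℝ) /
        (2 : ℝ) ^ (Gr a b).edgeSet.ncard := rfl
    rw [h3, h1, set_eq, Set.ncard_image_of_injective _ os_inj]
  rw [h2]
  unfold prob
  have h4 : ∀ ω : Edg a b → Bool, (if Cross ω then wgt (1 / 2) ω else 0) =
      if Cross ω then (1 / 2 : ℝ) ^ Fintype.card (Edg a b) else 0 := fun ω => by rw [wgt_half]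
  rw [Finset.sum_congr rfl fun ω _ => h4 ω, ← Finset.sum_filter, Finset.sum_const, nsmul_eq_mul,
    Set.ncard_eq_toFinset_card', Set.toFinset_ofPred, one_div, inv_pow, div_eq_mul_inv]

end W96CL
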